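import Pool.Agent.Helper62.OP.Defs

/-! OP, block O10: size of the coefficients, the prime sum through the primitive, size of `Ev`. -/

set_option autoImplicit false
open MeasureTheory Set Filter Topology
open Pool.Agent.Helper57.Zeta Pool.Agent.Helper57.LH Pool.Agent.Helper57.ED
open Pool.Agent.Helper54.LG (za zb qk SS MM)
open Pool.Agent.Helper93.UG (zc sp)
open Pool.Agent.Helper69.UG (XX NX near far)
open Pool.Agent.Helper57.TX (QX DP rs)
open Pool.Agent.Helper57.NS (cnt)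
open Pool.Agent.Helper62.OP

namespace Pool.Agent.Helper44.OP

theorem abs_a_le {R L : ℝ} (hR : 0 < R) (hRL : R ≤ L) (F : Fam R L) (i : Fin F.n) : |F.a i| ≤ L := by
  rw [abs_le]
  have h := F.le i
  rcases F.out i with ⟨h1, h2⟩ | ⟨h1, h2⟩ <;> constructor <;> linarith

theorem abs_b_le {R L : ℝ} (hR : 0 < R) (hRL : R ≤ L) (F : Fam R L) (i : Fin F.n) : |F.b i| ≤ L := by
  rw [abs_le]
  have h := F.le i
  rcases F.out i with ⟨h1, h2⟩ | ⟨h1, h2⟩ <;> constructor <;> linarith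

/-- O10c: `Ev` -/
theorem ev_le {R L v : ℝ} (hR : 0 < R) (hRL : R ≤ L) (F : Fam R L) {g : ℝ → ℝ} (hg : ∀ x : ℝ, |x| ≤ L → |g x| ≤ v) :
    |Ev F g| ≤ 2 * F.B * v := by
  have h1 : |g R - g (-R)| ≤ 2 * v := by
    have a1 := hg R (by rw [abs_of_pos hR]; exact hRL)
    have a2 := hg (-R) (by rw [abs_neg, abs_of_pos hR]; exact hRL)
    calc |g R - g (-R)| ≤ |g R| + |g (-R)| := abs_sub _ _
      _ ≤ 2 * v := by linarith
  have h2 : |∑ i, F.c i * (g (F.b i) - g (F.a i))| ≤ ∑ i, |F.c i| * (2 * v) := by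
    refine (Finset.abs_sum_le_sum_abs _ _).trans (Finset.sum_le_sum fun i _ => ?_)
    rw [abs_mul]
    refine mul_le_mul_of_nonneg_left ?_ (abs_nonneg _)
    have a1 := hg _ (abs_a_le hR hRL F i)
    have a2 := hg _ (abs_b_le hR hRL F i)
    calc |g (F.b i) - g (F.a i)| ≤ |g (F.b i)| + |g (F.a i)| := abs_sub _ _
      _ ≤ 2 * v := by linarith
  calc |Ev F g| ≤ |g R - g (-R)| + |∑ i, F.c i * (g (F.b i) - g (F.a i))| := abs_add_le _ _
    _ ≤ 2 * v + ∑ i, |F.c i| * (2 * v) := add_le_add h1 h2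
    _ = 2 * F.B * v := by
      rw [← Finset.sum_mul]
      unfold Fam.B
      ring

theorem re_I_exp (θ : ℝ) : (Complex.I * Complex.exp (-((θ : ℝ) : ℂ) * Complex.I)).re = Real.sin θ := by
  have h : -((θ : ℝ) : ℂ) * Complex.I = (((-θ : ℝ)) : ℂ) * Complex.I := by push_cast; ring
  rw [h, Complex.exp_mul_I]
  simp [Complex.sin_ofReal_re]

/-- One term of the family. -/
theorem term_eq {R L : ℝ} (F : Fam R L) (g : ℝ → ℂ) (a : ℂ) :
    a * EvC F g = EvC F (fun x => a * g x) := by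
  unfold EvC
  rw [mul_add, Finset.mul_sum]
  congr 1
  · ring
  · exact Finset.sum_congr rfl fun i _ => by ring

theorem re_EvC {R L : ℝ} (F : Fam R L) (g : ℝ → ℂ) : (EvC F g).re = Ev F (fun x => (g x).re) := by
  unfold EvC Ev
  rw [Complex.add_re, Complex.re_sum, Complex.sub_re]
  congr 1
  exact Finset.sum_congr rfl fun i _ => by rw [Complex.re_ofReal_mul, Complex.sub_re]

theorem Ev_smul {R L : ℝ} (F : Fam R L) (g : ℝ → ℝ) (a : ℝ) : Ev F (fun x => a * g x) = a * Ev F g := by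
  unfold Ev
  rw [mul_add, Finset.mul_sum]
  congr 1
  · ring
  · exact Finset.sum_congr rfl fun i _ => by ring

theorem Ev_sum {R L : ℝ} (F : Fam R L) {ι : Type*} (s : Finset ι) (g : ι → ℝ → ℝ) :
    Ev F (fun x => ∑ j ∈ s, g j x) = ∑ j ∈ s, Ev F (g j) := by
  unfold Ev
  rw [Finset.sum_add_distrib, Finset.sum_sub_distrib, Finset.sum_comm]
  congr 1
  refine Finset.sum_congr rfl fun i _ => ?_
  rw [← Finset.sum_sub_distrib, Finset.mul_sum]

theorem cpow_eq {p : ℕ} (hp : 0 < p) (t : ℝ) :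
    (p : ℂ) ^ (-((1 / 2 : ℂ) + (t : ℂ) * Complex.I)) =
      (((Real.sqrt p)⁻¹ : ℝ) : ℂ) * Complex.exp (-((t * Real.log p : ℝ) : ℂ) * Complex.I) := by
  have hp0 : (p : ℂ) ≠ 0 := by exact_mod_cast hp.ne'
  have hpr : (0 : ℝ) < p := by exact_mod_cast hp
  have hlog : Complex.log (p : ℂ) = ((Real.log p : ℝ) : ℂ) := by
    rw [Complex.natCast_log]
  rw [Complex.cpow_def_of_ne_zero hp0, hlog]
  have h1 : ((Real.log p : ℝ) : ℂ) * (-((1 / 2 : ℂ) + (t : ℂ) * Complex.I)) =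
      ((-(1 / 2) * Real.log p : ℝ) : ℂ) + (-((t * Real.log p : ℝ) : ℂ) * Complex.I) := by
    push_cast; ring
  rw [h1, Complex.exp_add, ← Complex.ofReal_exp]
  congr 2
  rw [show -(1 / 2) * Real.log p = -(Real.log p * (1 / 2)) by ring, Real.exp_neg, Real.sqrt_eq_rpow, Real.rpow_def_of_pos hpr]

/-- O10b: `Pf` through the primitive -/
theorem pf_eq {k T R L : ℝ} (F : Fam R L) (t : ℝ) : Pf k T F t = Ev F (Pp k T R L t) := by
  have hP : Pp k T R L t = fun x => ∑ p ∈ QX (Xo k T R L),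
      (-(1 / Real.pi) * ((Real.sqrt p)⁻¹ * pr k T R L p)) * Real.sin ((t + x * sp T) * Real.log p) := by
    funext x
    unfold Pp
    rw [Finset.mul_sum]
    exact Finset.sum_congr rfl fun p _ => by ring
  rw [hP, Ev_sum]
  unfold Pf Pool.Agent.Helper62.OP.DC
  rw [Complex.re_sum]
  refine Finset.sum_congr rfl fun p hp => ?_
  have hpp : p.Prime := (Finset.mem_filter.1 hp).2
  rw [Ev_smul, cpow_eq hpp.pos]
  unfold wo
  set E : ℂ := Complex.exp (-((t * Real.log p : ℝ) : ℂ) * Complex.I) with hE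
  have h1 : -(Complex.I / Real.pi) * (pr k T R L p : ℂ) *
        (EvC F fun x => Complex.exp (-((x * sp T * Real.log p : ℝ) : ℂ) * Complex.I)) *
      ((((Real.sqrt p)⁻¹ : ℝ) : ℂ) * E) =
      ((-(1 / Real.pi) * ((Real.sqrt p)⁻¹ * pr k T R L p) : ℝ) : ℂ) *
        ((Complex.I * E) * (EvC F fun x => Complex.exp (-((x * sp T * Real.log p : ℝ) : ℂ) * Complex.I))) := by
    push_cast; ring
  rw [h1, Complex.re_ofReal_mul, term_eq, re_EvC]
  congr 1
  congr 1
  funext x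
  rw [hE, mul_assoc, ← Complex.exp_add]
  have h2 : -((t * Real.log p : ℝ) : ℂ) * Complex.I + -((x * sp T * Real.log p : ℝ) : ℂ) * Complex.I =
      -((((t + x * sp T) * Real.log p : ℝ)) : ℂ) * Complex.I := by push_cast; ring
  rw [h2, re_I_exp]

theorem norm_exp_sub (a b θ : ℝ) :
    ‖Complex.exp (-((b * θ : ℝ) : ℂ) * Complex.I) - Complex.exp (-((a * θ : ℝ) : ℂ) * Complex.I)‖ ≤ |b - a| * |θ| := by
  have h1 : Complex.exp (-((b * θ : ℝ) : ℂ) * Complex.I) - Complex.exp (-((a * θ : ℝ) : ℂ) * Complex.I) =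
      Complex.exp (((-(a * θ) : ℝ) : ℂ) * Complex.I) * (Complex.exp (Complex.I * ((-((b - a) * θ) : ℝ) : ℂ)) - 1) := by
    rw [mul_sub, ← Complex.exp_add, mul_one]
    congr 2 <;> push_cast <;> ring
  rw [h1, norm_mul, Complex.norm_exp_ofReal_mul_I, one_mul]
  refine (Real.norm_exp_I_mul_ofReal_sub_one_le).trans ?_
  rw [Real.norm_eq_abs, abs_neg, abs_mul]

theorem norm_EvC_le {R L θ : ℝ} (hR : 0 < R) (hRL : R ≤ L) (F : Fam R L) :
    ‖EvC F fun x => Complex.exp (-((x * θ : ℝ) : ℂ) * Complex.I)‖ ≤ 2 * L * |θ| * F.B := by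
  have h0 := abs_nonneg θ
  have h1 : ‖Complex.exp (-((R * θ : ℝ) : ℂ) * Complex.I) - Complex.exp (-(((-R) * θ : ℝ) : ℂ) * Complex.I)‖ ≤
      2 * L * |θ| := by
    refine (norm_exp_sub (-R) R θ).trans (mul_le_mul_of_nonneg_right ?_ h0)
    rw [abs_le]; constructor <;> linarith
  have h2 : ‖∑ i, (F.c i : ℂ) * (Complex.exp (-((F.b i * θ : ℝ) : ℂ) * Complex.I) -
      Complex.exp (-((F.a i * θ : ℝ) : ℂ) * Complex.I))‖ ≤ ∑ i, |F.c i| * (2 * L * |θ|) := by
    refine (norm_sum_le _ _).trans (Finset.sum_le_sum fun i _ => ?_)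
    rw [norm_mul, Complex.norm_real, Real.norm_eq_abs]
    refine mul_le_mul_of_nonneg_left ?_ (abs_nonneg _)
    refine (norm_exp_sub (F.a i) (F.b i) θ).trans (mul_le_mul_of_nonneg_right ?_ h0)
    have a1 := abs_le.1 (abs_a_le hR hRL F i)
    have a2 := abs_le.1 (abs_b_le hR hRL F i)
    rw [abs_le]; constructor <;> linarith [a1.1, a1.2, a2.1, a2.2]
  calc _ ≤ ‖Complex.exp (-((R * θ : ℝ) : ℂ) * Complex.I) - Complex.exp (-(((-R) * θ : ℝ) : ℂ) * Complex.I)‖ +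
        ‖∑ i, (F.c i : ℂ) * (Complex.exp (-((F.b i * θ : ℝ) : ℂ) * Complex.I) -
          Complex.exp (-((F.a i * θ : ℝ) : ℂ) * Complex.I))‖ := norm_add_le _ _
    _ ≤ 2 * L * |θ| + ∑ i, |F.c i| * (2 * L * |θ|) := add_le_add h1 h2
    _ = 2 * L * |θ| * F.B := by
      rw [← Finset.sum_mul]
      unfold Fam.B
      ring

theorem log_sq_le {x : ℝ} (hx : 1 ≤ x) : Real.log x ^ 2 ≤ 16 * x := by
  have h0 : 0 < x := by linarith
  have h1 : Real.log x ≤ 4 * x ^ (1 / 4 : ℝ) := by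
    have h := Real.log_le_rpow_div h0.le (show (0 : ℝ) < 1 / 4 by norm_num)
    linarith
  have h2 : 0 ≤ Real.log x := Real.log_nonneg hx
  have h3 : Real.log x ^ 2 ≤ (4 * x ^ (1 / 4 : ℝ)) ^ 2 := pow_le_pow_left₀ h2 h1 2
  have h4 : (4 * x ^ (1 / 4 : ℝ)) ^ 2 = 16 * x ^ (1 / 2 : ℝ) := by
    rw [mul_pow, ← Real.rpow_natCast (x ^ (1 / 4 : ℝ)) 2, ← Real.rpow_mul h0.le]; norm_num
  have h5 : x ^ (1 / 2 : ℝ) ≤ x := by
    calc x ^ (1 / 2 : ℝ) ≤ x ^ (1 : ℝ) := Real.rpow_le_rpow_of_exponent_le hx (by norm_num)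
      _ = x := Real.rpow_one x
  rw [h4] at h3
  linarith

theorem pr_mem {k T R L : ℝ} {p : ℕ} (hp : p ∈ QX (Xo k T R L)) (hX : 0 < Xo k T R L) :
    0 ≤ pr k T R L p ∧ pr k T R L p ≤ 1 := by
  obtain ⟨h1, h2⟩ := Finset.mem_filter.1 hp
  have h3 : (p : ℝ) ≤ Real.exp (Xo k T R L) := by
    have h4 : p ≤ ⌊Real.exp (Xo k T R L)⌋₊ := by
      have := Finset.mem_range.1 h1
      omega
    exact (Nat.le_floor_iff (Real.exp_pos _).le).1 h4
  have h5 : Real.log p ≤ Xo k T R L := by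
    have := Real.log_le_log (by exact_mod_cast h2.pos) h3
    rwa [Real.log_exp] at this
  have h6 : 0 ≤ Real.log p := Real.log_nonneg (by exact_mod_cast h2.one_lt.le)
  have h7 : Real.log p / Xo k T R L ≤ 1 := by rw [div_le_one hX]; exact h5
  have h8 : 0 ≤ Real.log p / Xo k T R L := div_nonneg h6 hX.le
  unfold pr
  exact ⟨sq_nonneg _, by nlinarith⟩

/-- O10a: small coefficients -/
theorem wo_le {k d : ℝ} (_hk : 0 < k) (_hkd : k ≤ d / 100) (_hd : 0 < d) (_hd1 : d ≤ 1) : ∃ C T₀ : ℝ, 1 ≤ C ∧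
    ∀ T R L : ℝ, T₀ ≤ T → C ≤ L → Rng d T R L → ∀ (F : Fam R L) (p : ℕ), p ∈ QX (Xo k T R L) →
      ‖wo k T F p‖ ^ 2 / p ≤ C * F.B ^ 2 * Real.log T ^ (-(2 * d)) := by
  refine ⟨256, 3, by norm_num, fun T R L hT hL hr F p hp => ?_⟩
  obtain ⟨hr1, hr2, hr3⟩ := hr
  have hL1 : (1 : ℝ) ≤ L := by linarith
  have hL0 : 0 < L := by linarith
  have hR : 0 < R := lt_of_lt_of_le (Real.rpow_pos_of_pos hL0 d) hr2
  have hRL : R ≤ L := hr3.trans (by
    calc L ^ (1 - d) ≤ L ^ (1 : ℝ) := Real.rpow_le_rpow_of_exponent_le hL1 (by linarith)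
      _ = L := Real.rpow_one L)
  have hlT : 0 < Real.log T := Real.log_pos (by linarith)
  have hM : 0 < Ms k R L := mul_pos hR (Real.rpow_pos_of_pos (div_pos hL0 hR) _)
  have hX : 0 < Xo k T R L := div_pos hlT hM
  obtain ⟨hp0, hp1⟩ := pr_mem hp hX
  have hpp : p.Prime := (Finset.mem_filter.1 hp).2
  have hpr : (1 : ℝ) ≤ p := by exact_mod_cast hpp.one_lt.le
  have hp00 : (0 : ℝ) < p := by linarith
  have hlp : 0 ≤ Real.log p := Real.log_nonneg hpr
  have hsp : 0 < sp T := div_pos (by positivity) hlT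
  have hB : 0 ≤ F.B := by
    unfold Fam.B
    have : 0 ≤ ∑ i, |F.c i| := Finset.sum_nonneg fun i _ => abs_nonneg _
    linarith
  have hE : ‖EvC F fun x => Complex.exp (-((x * sp T * Real.log p : ℝ) : ℂ) * Complex.I)‖ ≤
      2 * L * (sp T * Real.log p) * F.B := by
    have h := norm_EvC_le (θ := sp T * Real.log p) hR hRL F
    rw [abs_of_nonneg (mul_nonneg hsp.le hlp)] at h
    simpa only [mul_assoc] using h
  have hw : ‖wo k T F p‖ ≤ 4 * (L / Real.log T) * Real.log p * F.B := by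
    unfold wo
    rw [norm_mul, norm_mul, norm_neg, norm_div, Complex.norm_I, Complex.norm_real, Complex.norm_real,
      Real.norm_eq_abs, Real.norm_eq_abs, abs_of_pos Real.pi_pos, abs_of_nonneg hp0]
    calc 1 / Real.pi * pr k T R L p * ‖EvC F fun x => Complex.exp (-((x * sp T * Real.log p : ℝ) : ℂ) * Complex.I)‖
        ≤ 1 / Real.pi * 1 * (2 * L * (sp T * Real.log p) * F.B) := by
          refine mul_le_mul (mul_le_mul_of_nonneg_left hp1 (by positivity)) hE (norm_nonneg _) (by positivity)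
      _ = 4 * (L / Real.log T) * Real.log p * F.B := by
          unfold sp
          field_simp
          ring
  have hLT : L / Real.log T ≤ Real.log T ^ (-d) := by
    rw [div_le_iff₀ hlT]
    calc L ≤ Real.log T ^ (1 - d) := hr1
      _ = Real.log T ^ (-d) * Real.log T := by
        rw [← Real.rpow_add_one hlT.ne']; congr 1; ring
  have hLT0 : 0 ≤ L / Real.log T := by positivity
  have hsq : (Real.log T ^ (-d)) ^ 2 = Real.log T ^ (-(2 * d)) := by
    rw [← Real.rpow_natCast, ← Real.rpow_mul hlT.le]; congr 1; push_cast; ring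
  have h1 : ‖wo k T F p‖ ^ 2 ≤ (4 * (L / Real.log T) * Real.log p * F.B) ^ 2 :=
    pow_le_pow_left₀ (norm_nonneg _) hw 2
  have h2 : (L / Real.log T) ^ 2 ≤ Real.log T ^ (-(2 * d)) := by
    rw [← hsq]; exact pow_le_pow_left₀ hLT0 hLT 2
  have h3 : Real.log p ^ 2 ≤ 16 * p := log_sq_le hpr
  rw [div_le_iff₀ hp00]
  calc ‖wo k T F p‖ ^ 2 ≤ (4 * (L / Real.log T) * Real.log p * F.B) ^ 2 := h1
    _ = 16 * (L / Real.log T) ^ 2 * Real.log p ^ 2 * F.B ^ 2 := by ring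
    _ ≤ 16 * Real.log T ^ (-(2 * d)) * (16 * p) * F.B ^ 2 := by
      refine mul_le_mul_of_nonneg_right ?_ (sq_nonneg _)
      refine mul_le_mul (mul_le_mul_of_nonneg_left h2 (by norm_num)) h3 (sq_nonneg _) (by positivity)
    _ = 256 * F.B ^ 2 * Real.log T ^ (-(2 * d)) * p := by ring

end Pool.Agent.Helper44.OP
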